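import Mathlib

/-!
# Splitting families of uncountable sets and separation of closed discrete sets
-/

set_option autoImplicit false

namespace Pool.Agent.V11242.SP

open Cardinal

section defs

variable (K Ω : Type) [LinearOrder Ω]

/-- Every proper initial segment of `Ω` is covered by the range of a function from `ℕ`. -/
def SegFor : Prop := ∀ a : Ω, ∃ g : ℕ → Ω, ∀ b, b < a → ∃ n, g n = b

/-- The range of every function from `ℕ` to `Ω` has a strict upper bound. -/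
def BddFor : Prop := ∀ g : ℕ → Ω, ∃ a : Ω, ∀ n, g n < a

/-- Some map from `Y` to the power set of `ℕ` is onto. -/
def PowFor (Y : Type) : Prop := ∃ E : Y → Set ℕ, ∀ x : Set ℕ, ∃ y, x = E y

variable {Ω}

/-- `C` is unbounded. -/
def UnboundedFor (C : Set Ω) : Prop := ∀ a, ∃ b, a < b ∧ b ∈ C

/-- `Z` splits `C`. -/
def SplitsFor (C Z : Set Ω) : Prop := (∃ a, a ∈ C ∧ a ∈ Z) ∧ (∃ a, a ∈ C ∧ a ∉ Z)

variable (Ω)

/-- Every family, indexed by `K`, of unbounded subsets of `Ω` is split by a single set. -/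
def SplitFor : Prop :=
  ∀ C : K → Set Ω, (∀ k, UnboundedFor (C k)) → ∃ Z : Set Ω, ∀ k, SplitsFor (C k) Z

/-- The sentence. -/
def PhiFor : Prop :=
  SegFor Ω ∧ BddFor Ω ∧ PowFor K ∧ ¬ PowFor Ω ∧ SplitFor K Ω

end defs

section topology

variable {X : Type} [TopologicalSpace X] {Y : Set X}

/-- `f` is a neighbourhood assignment for `Y`. -/
def IsAssignment (Y : Set X) (f : Y → Set X) : Prop :=
  ∀ y : Y, IsOpen (f y) ∧ f y ∩ Y = {(y : X)}

/-- `f` witnesses the normality of `Z`. -/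
def Witnesses (f : Y → Set X) (Z : Set Y) : Prop :=
  (⋃ y ∈ Z, f y) ∩ (⋃ y ∈ Zᶜ, f y) = ∅

/-- `Y` is separated. -/
def IsSeparated (Y : Set X) : Prop :=
  ∃ U : Y → Set X, (∀ y, IsOpen (U y) ∧ (y : X) ∈ U y) ∧ ∀ y z, y ≠ z → U y ∩ U z = ∅

end topology

/-- The assertion `(∗)`. -/
def Star : Prop :=
  ∀ (X : Type) [TopologicalSpace X] [NormalSpace X] (Y : Set X), IsClosed Y →
    DiscreteTopology Y → #Y = ℵ_ 1 →
    (∃ F : Set (Y → Set X), #F ≤ 𝔠 ∧ (∀ f ∈ F, IsAssignment Y f) ∧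
      ∀ Z : Set Y, ∃ f ∈ F, Witnesses f Z) →
    IsSeparated Y

section proofs

variable {X : Type} [TopologicalSpace X] {Y : Set X}

theorem sep_countable [NormalSpace X] (hY : IsClosed Y) (hd : DiscreteTopology Y) (A : Set Y)
    (hA : A.Countable) : ∃ V : Y → Set X, (∀ y ∈ A, IsOpen (V y) ∧ (y : X) ∈ V y) ∧
      ∀ y ∈ A, ∀ z ∈ A, y ≠ z → V y ∩ V z = ∅ := by
  classical
  have hcl : ∀ B : Set Y, IsClosed (Subtype.val '' B) := fun B =>
    hY.isClosedEmbedding_subtypeVal.isClosedMap B (isClosed_discrete B)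
  have hsep : ∀ y : Y, ∃ W W' : Set X, IsOpen W ∧ IsOpen W' ∧ (y : X) ∈ W ∧
      (∀ z : Y, z ≠ y → (z : X) ∈ W') ∧ W ∩ W' = ∅ := by
    intro y
    have hdis : Disjoint (Subtype.val '' ({y} : Set Y)) (Subtype.val '' ({y}ᶜ : Set Y)) := by
      rw [Set.disjoint_image_iff Subtype.val_injective]
      exact disjoint_compl_right
    obtain ⟨W, W', h1, h2, h3, h4, h5⟩ := normal_separation (hcl {y}) (hcl {y}ᶜ) hdis
    exact ⟨W, W', h1, h2, h3 ⟨y, rfl, rfl⟩, fun z hz => h4 ⟨z, hz, rfl⟩, h5.inter_eq⟩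
  choose W W' hW hW' hyW hzW' hWW' using hsep
  obtain ⟨e, he⟩ := Set.countable_iff_exists_injOn.mp hA
  refine ⟨fun y => W y ∩ ⋂ z ∈ {z | z ∈ A ∧ e z < e y}, W' z, ?_, ?_⟩
  · intro y hy
    constructor
    · refine (hW y).inter (Set.Finite.isOpen_biInter ?_ fun z _ => hW' z)
      refine Set.Finite.of_injOn (f := e) (t := Set.Iio (e y)) ?_ ?_ (Set.finite_Iio _)
      · intro z hz; exact hz.2
      · exact he.mono fun z hz => hz.1
    · refine ⟨hyW y, Set.mem_iInter₂.mpr fun z hz => hzW' z y ?_⟩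
      rintro rfl
      exact lt_irrefl _ hz.2
  · have main : ∀ y ∈ A, ∀ z ∈ A, e y < e z →
        (W y ∩ ⋂ x ∈ {x | x ∈ A ∧ e x < e y}, W' x) ∩
          (W z ∩ ⋂ x ∈ {x | x ∈ A ∧ e x < e z}, W' x) = ∅ := by
      intro y hy z hz hlt
      rw [Set.eq_empty_iff_forall_notMem]
      rintro t ⟨⟨h1, _⟩, ⟨_, h2⟩⟩
      have h3 := Set.mem_iInter₂.mp h2 y ⟨hy, hlt⟩
      have h4 : t ∈ W y ∩ W' y := ⟨h1, h3⟩
      rw [hWW'] at h4
      exact h4
    intro y hy z hz hne
    rcases lt_trichotomy (e y) (e z) with h | h | h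
    · exact main y hy z hz h
    · exact absurd (he hy hz h) hne
    · rw [Set.inter_comm]
      exact main z hz y hy h

/-- The neighbourhoods intersect. -/
def Meet (f : Y → Set X) (y z : Y) : Prop := (f y ∩ f z).Nonempty

/-- The connected component. -/
def comp (f : Y → Set X) (y : Y) : Set Y := {z | Relation.ReflTransGen (Meet f) y z}

omit [TopologicalSpace X] in
theorem Meet.symm {f : Y → Set X} {y z : Y} (h : Meet f y z) : Meet f z y := by
  unfold Meet at *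
  rwa [Set.inter_comm]

omit [TopologicalSpace X] in
theorem reach_symm {f : Y → Set X} {y z : Y} (h : Relation.ReflTransGen (Meet f) y z) :
    Relation.ReflTransGen (Meet f) z y := by
  induction h with
  | refl => exact Relation.ReflTransGen.refl
  | tail _ hbc ih => exact (Relation.ReflTransGen.single hbc.symm).trans ih

omit [TopologicalSpace X] in
theorem comp_eq {f : Y → Set X} {y z : Y} (h : z ∈ comp f y) : comp f z = comp f y := by
  have hs : Relation.ReflTransGen (Meet f) z y := reach_symm h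
  ext w
  exact ⟨fun hw => Relation.ReflTransGen.trans h hw, fun hw => Relation.ReflTransGen.trans hs hw⟩

theorem separated_of_countable [NormalSpace X] (hY : IsClosed Y) (hd : DiscreteTopology Y)
    {f : Y → Set X} (hf : IsAssignment Y f) (hc : ∀ y, (comp f y).Countable) :
    IsSeparated Y := by
  classical
  have h1 : ∀ A : Set Y, ∃ V : Y → Set X, A.Countable →
      (∀ y ∈ A, IsOpen (V y) ∧ (y : X) ∈ V y) ∧ ∀ y ∈ A, ∀ z ∈ A, y ≠ z → V y ∩ V z = ∅ := by
    intro A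
    by_cases hA : A.Countable
    · obtain ⟨V, hV⟩ := sep_countable hY hd A hA
      exact ⟨V, fun _ => hV⟩
    · exact ⟨fun _ => ∅, fun h => absurd h hA⟩
  choose V hV using h1
  have hself : ∀ y, y ∈ comp f y := fun y => Relation.ReflTransGen.refl
  refine ⟨fun y => V (comp f y) y ∩ f y, ?_, ?_⟩
  · intro y
    obtain ⟨h2, _⟩ := hV _ (hc y)
    refine ⟨(h2 y (hself y)).1.inter (hf y).1, (h2 y (hself y)).2, ?_⟩
    have h3 : (y : X) ∈ f y ∩ Y := by rw [(hf y).2]; rfl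
    exact h3.1
  · intro y z hne
    rw [Set.eq_empty_iff_forall_notMem]
    rintro t ⟨⟨h2, h3⟩, ⟨h4, h5⟩⟩
    have h6 : z ∈ comp f y := Relation.ReflTransGen.single ⟨t, h3, h5⟩
    rw [comp_eq h6] at h4
    have h7 := (hV _ (hc y)).2 y (hself y) z h6 hne
    have h8 : t ∈ V (comp f y) y ∩ V (comp f y) z := ⟨h2, h4⟩
    rw [h7] at h8
    exact h8

omit [TopologicalSpace X] in
theorem witness_comp {f : Y → Set X} {Z : Set Y} (h : Witnesses f Z) {y z : Y}
    (hz : z ∈ comp f y) : y ∈ Z ↔ z ∈ Z := by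
  have h1 : ∀ a b : Y, Meet f a b → (a ∈ Z → b ∈ Z) := by
    rintro a b ⟨t, ha, hb⟩ haZ
    by_contra hbZ
    have h2 : t ∈ (⋃ y ∈ Z, f y) ∩ (⋃ y ∈ Zᶜ, f y) :=
      ⟨Set.mem_biUnion haZ ha, Set.mem_biUnion hbZ hb⟩
    unfold Witnesses at h
    rw [h] at h2
    exact h2
  have hz' : Relation.ReflTransGen (Meet f) y z := hz
  clear hz
  induction hz' with
  | refl => exact Iff.rfl
  | tail _ hbc ih => exact ih.trans ⟨h1 _ _ hbc, h1 _ _ hbc.symm⟩

variable {K Ω : Type} [LinearOrder Ω]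

theorem nonempty_of_phi (h : PhiFor K Ω) : Nonempty Ω := by
  obtain ⟨_, _, ⟨E, hE⟩, _, hS⟩ := h
  obtain ⟨k, _⟩ := hE ∅
  by_contra hne
  rw [not_nonempty_iff] at hne
  obtain ⟨Z, hZ⟩ := hS (fun _ => ∅) fun _ a => hne.elim a
  obtain ⟨⟨a, _⟩, _⟩ := hZ k
  exact hne.elim a

theorem uncountable_of_phi (h : PhiFor K Ω) : ¬ Countable Ω := by
  intro hc
  have hne := nonempty_of_phi h
  obtain ⟨g, hg⟩ := exists_surjective_nat Ω
  obtain ⟨a, ha⟩ := h.2.1 g
  obtain ⟨n, hn⟩ := hg a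
  have := ha n
  rw [hn] at this
  exact lt_irrefl _ this

theorem aleph_one_le_of_phi (h : PhiFor K Ω) : ℵ_ 1 ≤ #Ω := by
  rw [← Cardinal.succ_aleph0]
  refine Order.succ_le_of_lt (not_le.mp fun hc => uncountable_of_phi h ?_)
  exact Cardinal.mk_le_aleph0_iff.mp hc

theorem unbounded_of_uncountable (h : PhiFor K Ω) {C : Set Ω} (hC : ¬ C.Countable) :
    UnboundedFor C := by
  intro a
  by_contra hcon
  push Not at hcon
  apply hC
  obtain ⟨g, hg⟩ := h.1 a
  refine Set.Countable.mono ?_ ((Set.countable_range g).union (Set.countable_singleton a))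
  intro b hb
  rcases lt_trichotomy b a with hlt | heq | hgt
  · exact Or.inl (hg b hlt)
  · exact Or.inr heq
  · exact absurd hb (hcon b hgt)

theorem star_of_phi (h : PhiFor K Ω) : Star := by
  classical
  intro X _ _ Y hY hd hYcard ⟨F, hF, hFa, hFw⟩
  by_cases hcase : ∃ f ∈ F, ∀ y, (comp f y).Countable
  · obtain ⟨f, hf, hc⟩ := hcase
    exact separated_of_countable hY hd (hFa f hf) hc
  exfalso
  push Not at hcase
  -- a surjection from `K` onto `F`
  obtain ⟨f₀, hf₀, _⟩ := hFw ∅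
  have : Nonempty F := ⟨⟨f₀, hf₀⟩⟩
  obtain ⟨E, hE⟩ := h.2.2.1
  have hK : 𝔠 ≤ #K := by
    have h1 : #(Set ℕ) ≤ #K := Cardinal.mk_le_of_surjective (f := E)
      (fun x => (hE x).imp fun y hy => hy.symm)
    rw [Cardinal.mk_set, Cardinal.mk_nat, Cardinal.two_power_aleph0] at h1
    exact h1
  obtain ⟨φ⟩ := hF.trans hK
  obtain ⟨j⟩ : #Y ≤ #Ω := by rw [hYcard]; exact aleph_one_le_of_phi h
  choose y hy using fun f : F => hcase f.1 f.2
  let s : K → F := Function.invFun φ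
  have hs : Function.Surjective s := Function.invFun_surjective φ.injective
  obtain ⟨Z, hZ⟩ := h.2.2.2.2 (fun k => j '' comp (s k).1 (y (s k))) (by
    intro k
    refine unbounded_of_uncountable h fun hcount => hy (s k) ?_
    exact Set.countable_of_injective_of_countable_image j.injective.injOn hcount)
  obtain ⟨f, hf, hw⟩ := hFw (j ⁻¹' Z)
  obtain ⟨k, hk⟩ := hs ⟨f, hf⟩
  obtain ⟨⟨a, ⟨a', ha', rfl⟩, haZ⟩, ⟨b, ⟨b', hb', rfl⟩, hbZ⟩⟩ := hZ k
  rw [hk] at ha' hb'
  have h1 := (witness_comp hw ha').mpr haZ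
  exact hbZ ((witness_comp hw hb').mp h1)

theorem not_ch_of_phi (h : PhiFor K Ω) : (𝔠 : Cardinal.{0}) ≠ ℵ_ 1 := by
  intro hCH
  apply h.2.2.2.1
  have h1 : #(Set ℕ) ≤ #Ω := by
    rw [Cardinal.mk_set, Cardinal.mk_nat, Cardinal.two_power_aleph0, hCH]
    exact aleph_one_le_of_phi h
  obtain ⟨φ⟩ := h1
  refine ⟨Function.invFun φ, fun x => ?_⟩
  obtain ⟨y, hy⟩ := Function.invFun_surjective φ.injective x
  exact ⟨y, hy.symm⟩

end proofs

end Pool.Agent.V11242.SP
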