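import Mathlib

/-!
# Sets closed under countably many arguments, of bounded size
-/

set_option autoImplicit false

namespace Pool.Agent.V11242.SP

open Cardinal

/-- The arities. -/
def Ar (I : Type) : Option I → Type
  | none => Empty
  | some _ => ℕ

/-- Evaluation of terms. -/
def evalW {Z I : Type} (op : I → (ℕ → Option Z) → Option Z) : WType (Ar I) → Option Z :=
  WType.elim (Option Z) fun x => match x with
    | ⟨none, _⟩ => none
    | ⟨some i, f⟩ => op i f

theorem exists_closed {Z I : Type} {κ : Cardinal.{0}} (hκ : κ ^ ℵ₀ ≤ κ) (hκ0 : ℵ₀ ≤ κ)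
    (hI : #I ≤ κ) (op : I → (ℕ → Option Z) → Option Z) :
    ∃ M : Set Z, #M ≤ κ ∧ ∀ i (f : ℕ → Option Z), (∀ n z, f n = some z → z ∈ M) →
      ∀ z, op i f = some z → z ∈ M := by
  classical
  refine ⟨{z | ∃ w, evalW op w = some z}, ?_, ?_⟩
  · have h1 : #(WType (Ar I)) ≤ κ := by
      apply WType.cardinalMk_le_of_le
      calc (Cardinal.sum fun a : Option I => κ ^ #(Ar I a))
          ≤ Cardinal.sum fun _ : Option I => κ := by
            apply Cardinal.sum_le_sum
            rintro (_ | i)
            · change κ ^ #Empty ≤ κ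
              rw [Cardinal.mk_empty, Cardinal.power_zero]
              exact le_trans Cardinal.one_le_aleph0 hκ0
            · change κ ^ #ℕ ≤ κ
              rw [Cardinal.mk_nat]
              exact hκ
        _ = #(Option I) * κ := by rw [Cardinal.sum_const']
        _ ≤ κ * κ := by
            gcongr
            rw [Cardinal.mk_option]
            calc #I + 1 ≤ κ + κ := add_le_add hI (le_trans Cardinal.one_le_aleph0 hκ0)
              _ = κ := Cardinal.add_eq_self hκ0
        _ = κ := Cardinal.mul_eq_self hκ0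
    refine le_trans ?_ h1
    have h2 : ∀ z : {z | ∃ w, evalW op w = some z}, ∃ w, evalW op w = some z.1 := fun z => z.2
    choose g hg using h2
    refine Cardinal.mk_le_of_injective (f := g) ?_
    intro z z' h
    have h3 := hg z
    rw [h, hg z'] at h3
    exact (Subtype.ext (Option.some.inj h3)).symm
  · intro i f hf z hz
    have h1 : ∀ n, ∃ w, evalW op w = f n := by
      intro n
      cases hn : f n with
      | none => exact ⟨WType.mk none (fun e => Empty.elim e), rfl⟩
      | some z' => exact hf n z' hn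
    choose w hw using h1
    refine ⟨WType.mk (some i) (fun n => w n), ?_⟩
    change op i (fun n => evalW op (w n)) = some z
    have h2 : (fun n => evalW op (w n)) = f := funext hw
    rw [h2]
    exact hz

theorem exists_enum {Z : Type} {S : Set Z} (hS : S.Countable) :
    ∃ h : ℕ → Option Z, ∀ z, z ∈ S ↔ ∃ n, h n = some z := by
  classical
  have := hS.to_subtype
  let _ : Encodable S := Encodable.ofCountable S
  refine ⟨fun n => (Encodable.decode (α := S) n).map Subtype.val, fun z => ?_⟩
  constructor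
  · intro hz
    exact ⟨Encodable.encode (⟨z, hz⟩ : S), by simp⟩
  · rintro ⟨n, hn⟩
    simp only [Option.map_eq_some_iff] at hn
    obtain ⟨a, _, ha⟩ := hn
    rw [← ha]
    exact a.2

theorem exists_closed_supp {P Z I : Type} {κ : Cardinal.{0}} (hκ : κ ^ ℵ₀ ≤ κ) (hκ0 : ℵ₀ ≤ κ)
    (hI : #I ≤ κ) (supp : P → Set Z) (hsupp : ∀ p, (supp p).Countable)
    (hcount : ∀ S : Set Z, S.Countable → #{p // supp p ⊆ S} ≤ κ) (g : I → P → P) :
    ∃ M : Set Z, #M ≤ κ ∧ ∀ i p, supp p ⊆ M → supp (g i p) ⊆ M := by
  classical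
  have hen : ∀ p, ∃ h : ℕ → Option Z, ∀ z, z ∈ supp p ↔ ∃ n, h n = some z :=
    fun p => exists_enum (hsupp p)
  choose en hen using hen
  obtain ⟨W, hW⟩ : ∃ W : Type, #W = κ := ⟨κ.out, Cardinal.mk_out κ⟩
  have hE : ∀ f : ℕ → Option Z, ∃ E : W → Option P,
      ∀ p, supp p ⊆ {z | ∃ n, f n = some z} → ∃ ξ, E ξ = some p := by
    intro f
    have hS : {z | ∃ n, f n = some z}.Countable := by
      have h1 : {z | ∃ n, f n = some z} ⊆ ⋃ n, {z | f n = some z} := by
        rintro z ⟨n, hn⟩
        exact Set.mem_iUnion.mpr ⟨n, hn⟩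
      refine Set.Countable.mono h1 (Set.countable_iUnion fun n => ?_)
      refine Set.Subsingleton.countable ?_
      intro a ha b hb
      have ha' : f n = some a := ha
      have hb' : f n = some b := hb
      exact Option.some.inj (ha'.symm.trans hb')
    have h1 := hcount _ hS
    rw [← hW] at h1
    obtain ⟨φ⟩ := h1
    refine ⟨fun ξ => if h : ∃ p, φ p = ξ then some (Classical.choose h).1 else none, ?_⟩
    intro p hp
    refine ⟨φ ⟨p, hp⟩, ?_⟩
    have h2 : ∃ p', φ p' = φ ⟨p, hp⟩ := ⟨_, rfl⟩
    beta_reduce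
    rw [dif_pos h2]
    have h3 := φ.injective (Classical.choose_spec h2)
    rw [h3]
  choose E hE using hE
  obtain ⟨M, hM, hcl⟩ := exists_closed (Z := Z) (I := I × W × ℕ) hκ hκ0 (by
    simp only [Cardinal.mk_prod, Cardinal.lift_id, hW, Cardinal.mk_nat]
    calc #I * (κ * ℵ₀) ≤ κ * (κ * κ) := by gcongr
      _ = κ := by rw [Cardinal.mul_eq_self hκ0, Cardinal.mul_eq_self hκ0])
    (fun x f => match E f x.2.1 with
      | none => none
      | some p => en (g x.1 p) x.2.2)
  refine ⟨M, hM, fun i p hp z hz => ?_⟩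
  obtain ⟨ξ, hξ⟩ := hE (en p) p (fun z hz => (hen p z).mp hz)
  obtain ⟨j, hj⟩ := (hen (g i p) z).mp hz
  refine hcl (i, ξ, j) (en p) (fun n z hn => hp ((hen p z).mpr ⟨n, hn⟩)) z ?_
  simp only [hξ]
  exact hj

end Pool.Agent.V11242.SP
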