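import Pool.Agent.V11242.SP.Force

/-!
# The forcing notion
-/

set_option autoImplicit false

namespace Pool.Agent.V11242.SP

open Cardinal

/-- The first uncountable ordinal. -/
abbrev Om : Type := (ℵ₁ : Cardinal.{0}).ord.ToType

theorem om_Iio (a : Om) : (Set.Iio a).Countable := by
  have h : #(Set.Iio a) < ℵ₁ := mk_Iio_toType_ord_lt a
  have h1 : ℵ₁ ≤ Order.succ (ℵ₀ : Cardinal.{0}) := succ_aleph0.ge
  rw [← Cardinal.le_aleph0_iff_set_countable]
  exact Order.lt_succ_iff.mp (h.trans_le h1)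

theorem om_card : #Om = ℵ₁ := by simp

instance om_nonempty : Nonempty Om := by
  rw [← Cardinal.mk_ne_zero_iff, om_card]
  exact (Cardinal.aleph_pos 1).ne'

theorem om_bdd (S : Set Om) (hS : S.Countable) : ∃ a, ∀ b ∈ S, b < a := by
  by_contra hcon
  push Not at hcon
  have h1 : (Set.univ : Set Om) ⊆ ⋃ b ∈ S, Set.Iic b := by
    intro a _
    obtain ⟨b, hb, hab⟩ := hcon a
    exact Set.mem_biUnion hb hab
  have h2 : (⋃ b ∈ S, Set.Iic b).Countable := by
    refine hS.biUnion fun b _ => ?_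
    have : Set.Iic b = insert b (Set.Iio b) := by
      ext x
      simp [le_iff_eq_or_lt]
    rw [this]
    exact (om_Iio b).insert _
  have h3 := h2.mono h1
  have h4 : #Om ≤ ℵ₀ := by
    rw [← Cardinal.mk_univ]
    exact Cardinal.le_aleph0_iff_set_countable.mpr h3
  rw [om_card] at h4
  exact absurd h4 (not_le.mpr Cardinal.aleph0_lt_aleph_one)

/-- The cardinality `2^𝔠`. -/
abbrev KK : Type := Set (Set ℕ)

theorem kk_card : #KK = 2 ^ 𝔠 := by
  rw [Cardinal.mk_set, Cardinal.mk_set, Cardinal.mk_nat, Cardinal.two_power_aleph0]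

theorem kk_gt : 𝔠 < #KK := by
  rw [kk_card]
  exact Cardinal.cantor _

theorem kk_pow : #KK ^ ℵ₀ = #KK := by
  rw [kk_card, ← Cardinal.power_mul, Cardinal.continuum_mul_aleph0]

theorem kk_inf : ℵ₀ ≤ #KK := Cardinal.aleph0_le_continuum.trans kk_gt.le

theorem fin_card : #(Pfn (KK × ℕ) Set.Finite) ≤ #KK := by
  have h3 : #(Pfn (KK × ℕ) Set.Finite) ≤ #(Finset ((KK × ℕ) × Bool)) := by
    refine Cardinal.mk_le_of_injective (f := fun p => p.hI.toFinset) ?_
    intro p q h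
    apply Pfn.ext'
    have := congrArg (fun s : Finset ((KK × ℕ) × Bool) => (s : Set ((KK × ℕ) × Bool))) h
    simpa using this
  refine h3.trans ?_
  rw [Cardinal.mk_finset_of_infinite]
  simp only [Cardinal.mk_prod, Cardinal.lift_id, Cardinal.mk_nat, Cardinal.mk_bool]
  calc #KK * ℵ₀ * 2 ≤ #KK * #KK * #KK := by
        gcongr
        · exact kk_inf
        · exact (Cardinal.natCast_lt_aleph0 (n := 2)).le.trans kk_inf
    _ = #KK := by rw [Cardinal.mul_eq_self kk_inf, Cardinal.mul_eq_self kk_inf]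

theorem names_card : #(ℕ → ℕ → Option (Pfn (KK × ℕ) Set.Finite)) ≤ #KK := by
  have h1 : #(Option (Pfn (KK × ℕ) Set.Finite)) ≤ #KK := by
    rw [Cardinal.mk_option]
    calc #(Pfn (KK × ℕ) Set.Finite) + 1 ≤ #KK + #KK :=
          add_le_add fin_card (Cardinal.one_le_aleph0.trans kk_inf)
      _ = #KK := Cardinal.add_eq_self kk_inf
  have h2 : #(ℕ → ℕ → Option (Pfn (KK × ℕ) Set.Finite)) =
      (#(Option (Pfn (KK × ℕ) Set.Finite)) ^ ℵ₀) ^ ℵ₀ := by
    simp [Cardinal.mk_pi, Cardinal.prod_const]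
  rw [h2]
  calc (#(Option (Pfn (KK × ℕ) Set.Finite)) ^ ℵ₀) ^ ℵ₀ ≤ (#KK ^ ℵ₀) ^ ℵ₀ :=
        Cardinal.power_le_power_right (Cardinal.power_le_power_right h1)
    _ = #KK := by rw [kk_pow, kk_pow]

theorem exists_forcing (p : Cnd (Set KK × Om) (KK × ℕ)) :
    p ∈ PhiHolds (Cnd (Set KK × Om) (KK × ℕ)) KK Om := by
  refine ⟨segHolds_of om_Iio p, bddHolds_of om_bdd p, powHolds_of names_card p,
    not_powHolds ?_ kk_gt p, splitHolds_of om_bdd ?_ kk_gt.le kk_pow.le ?_ ?_ p⟩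
  · rw [om_card]; exact Cardinal.aleph_one_le_continuum
  · rw [om_card]; exact Cardinal.aleph_one_le_continuum
  · rw [Cardinal.mk_prod, Cardinal.lift_id, Cardinal.lift_id, Cardinal.mk_nat]
    calc #KK * ℵ₀ ≤ #KK * #KK := mul_le_mul' le_rfl kk_inf
      _ = #KK := Cardinal.mul_eq_self kk_inf
  · rw [Cardinal.mk_set (α := KK)]
    exact Cardinal.cantor _

end Pool.Agent.V11242.SP
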