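import Mathlib

/-!
# Countable partial functions times finite partial functions
-/

set_option autoImplicit false

namespace Pool.Agent.V11242.SP

/-- Partial functions from `X` to `Bool` whose graph satisfies `I`. -/
structure Pfn (X : Type) (I : Set (X × Bool) → Prop) where
  s : Set (X × Bool)
  hI : I s
  fn : ∀ x b b', (x, b) ∈ s → (x, b') ∈ s → b = b'

variable {X Y : Type}

instance (I : Set (X × Bool) → Prop) : Preorder (Pfn X I) where
  le p q := q.s ⊆ p.s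
  le_refl p := subset_rfl
  le_trans p q r h h' := h'.trans h

theorem Pfn.le_def {I : Set (X × Bool) → Prop} {p q : Pfn X I} : p ≤ q ↔ q.s ⊆ p.s := Iff.rfl

theorem Pfn.ext' {I : Set (X × Bool) → Prop} {p q : Pfn X I} (h : p.s = q.s) : p = q := by
  cases p; cases q; simp only at h; subst h; rfl

/-- The domain. -/
def Pfn.dom {I : Set (X × Bool) → Prop} (p : Pfn X I) : Set X := {x | ∃ b, (x, b) ∈ p.s}

/-- Ideals containing the singletons. -/
structure Good (I : Set (X × Bool) → Prop) : Prop where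
  union : ∀ {a b}, I a → I b → I (a ∪ b)
  subset : ∀ {a b}, I a → b ⊆ a → I b
  single : ∀ z, I {z}

theorem good_countable : Good (X := X) Set.Countable where
  union := Set.Countable.union
  subset h h' := h.mono h'
  single z := Set.countable_singleton z

theorem good_finite : Good (X := X) Set.Finite where
  union := Set.Finite.union
  subset h h' := h.subset h'
  single z := Set.finite_singleton z

section

variable {I : Set (X × Bool) → Prop}

theorem Pfn.exists_union (hI : Good I) (p d : Pfn X I)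
    (h : ∀ x b b', (x, b) ∈ p.s → (x, b') ∈ d.s → b = b') : ∃ r : Pfn X I, r.s = p.s ∪ d.s := by
  refine ⟨⟨p.s ∪ d.s, hI.union p.hI d.hI, ?_⟩, rfl⟩
  rintro x b b' (h1 | h1) (h2 | h2)
  · exact p.fn x b b' h1 h2
  · exact h x b b' h1 h2
  · exact (h x b' b h2 h1).symm
  · exact d.fn x b b' h1 h2

theorem Pfn.exists_restrict (hI : Good I) (p : Pfn X I) (M : Set X) :
    ∃ r : Pfn X I, r.s = {z ∈ p.s | z.1 ∈ M} :=
  ⟨⟨{z ∈ p.s | z.1 ∈ M}, hI.subset p.hI fun _ hz => hz.1,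
    fun x b b' h1 h2 => p.fn x b b' h1.1 h2.1⟩, rfl⟩

/-- Amalgamation over `M`. -/
theorem Pfn.exists_amalg (hI : Good I) {p d : Pfn X I} {M : Set X} (hd : d.dom ⊆ M)
    (hp : ∀ z ∈ p.s, z.1 ∈ M → z ∈ d.s) : ∃ r : Pfn X I, r.s = p.s ∪ d.s := by
  refine Pfn.exists_union hI p d fun x b b' h1 h2 => ?_
  exact d.fn x b b' (hp _ h1 (hd ⟨b', h2⟩)) h2

theorem Pfn.exists_add (hI : Good I) (p : Pfn X I) {x : X} (hx : x ∉ p.dom) (b : Bool) :
    ∃ r : Pfn X I, r.s = insert (x, b) p.s := by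
  obtain ⟨r, hr⟩ := Pfn.exists_union hI p
    ⟨{(x, b)}, hI.single _, by
      rintro y c c' h1 h2
      simp only [Set.mem_singleton_iff, Prod.mk.injEq] at h1 h2
      rw [h1.2, h2.2]⟩ (by
      rintro y c c' h1 h2
      simp only [Set.mem_singleton_iff, Prod.mk.injEq] at h2
      exfalso
      apply hx
      rw [← h2.1]
      exact ⟨c, h1⟩)
  exact ⟨r, by rw [hr, Set.union_comm]; rfl⟩

theorem Pfn.exists_lub (p : ℕ → Pfn X Set.Countable) (hp : ∀ n, p (n + 1) ≤ p n) :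
    ∃ r : Pfn X Set.Countable, ∀ n, r ≤ p n := by
  have hanti : ∀ n m, n ≤ m → (p n).s ⊆ (p m).s := by
    intro n m h
    induction h with
    | refl => exact subset_rfl
    | step _ ih => exact ih.trans (hp _)
  refine ⟨⟨⋃ n, (p n).s, Set.countable_iUnion fun n => (p n).hI, ?_⟩, ?_⟩
  · intro x b b' h1 h2
    obtain ⟨n, hn⟩ := Set.mem_iUnion.mp h1
    obtain ⟨m, hm⟩ := Set.mem_iUnion.mp h2
    exact (p (max n m)).fn x b b' (hanti n _ (le_max_left _ _) hn) (hanti m _ (le_max_right _ _) hm)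
  · intro n
    exact Set.subset_iUnion (fun n => (p n).s) n

end

/-- Dense sets. -/
def Dns {P : Type} [Preorder P] (D : Set P) : Prop := ∀ p, ∃ q ≤ p, q ∈ D

/-- Downward closed sets. -/
def Dwn {P : Type} [Preorder P] (D : Set P) : Prop := ∀ p ∈ D, ∀ q ≤ p, q ∈ D

theorem exists_seq {A : Type} (R : A → A → Prop) (step : ℕ → A → A → Prop)
    (h : ∀ n a, ∃ b, R a b ∧ step n a b) (a₀ : A) :
    ∃ f : ℕ → A, f 0 = a₀ ∧ ∀ n, R (f n) (f (n + 1)) ∧ step n (f n) (f (n + 1)) := by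
  choose g hg using h
  exact ⟨fun n => Nat.rec a₀ (fun n a => g n a) n, rfl, fun n => hg n _⟩

theorem distrib {J : Type} [Countable J] (E : J → Set (Pfn X Set.Countable))
    (hdown : ∀ j, Dwn (E j)) (hdense : ∀ j, Dns (E j)) (p : Pfn X Set.Countable) :
    ∃ q ≤ p, ∀ j, q ∈ E j := by
  rcases isEmpty_or_nonempty J with hJ | hJ
  · exact ⟨p, le_rfl, fun j => (hJ.false j).elim⟩
  obtain ⟨e, he⟩ := exists_surjective_nat J
  obtain ⟨f, hf0, hf⟩ := exists_seq (A := Pfn X Set.Countable) (fun a b => b ≤ a)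
    (fun n _ b => b ∈ E (e n)) (fun n a => hdense (e n) a) p
  obtain ⟨r, hr⟩ := Pfn.exists_lub f fun n => (hf n).1
  refine ⟨r, hf0 ▸ hr 0, fun j => ?_⟩
  obtain ⟨n, rfl⟩ := he j
  exact hdown _ _ (hf n).2 r (hr (n + 1))

theorem countable_fin {N : Set Y} (hN : N.Countable) :
    {s : Pfn Y Set.Finite | s.dom ⊆ N}.Countable := by
  have h1 : {t : Set (Y × Bool) | t.Finite ∧ t ⊆ N ×ˢ Set.univ}.Countable :=
    Set.countable_ofPred_finite_subset (hN.prod (Set.to_countable _))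
  refine Set.MapsTo.countable_of_injOn (f := fun s : Pfn Y Set.Finite => s.s) ?_ ?_ h1
  · intro s hs
    refine ⟨s.hI, fun z hz => ⟨hs ⟨z.2, hz⟩, trivial⟩⟩
  · intro s _ s' _ h
    exact Pfn.ext' h

/-- The forcing conditions. -/
abbrev Cnd (X Y : Type) : Type := Pfn X Set.Countable × Pfn Y Set.Finite

theorem step {J : Type} [Countable J] (D : J → Set (Cnd X Y)) (hdown : ∀ n, Dwn (D n))
    (hdense : ∀ n, Dns (D n)) (p : Pfn X Set.Countable) {N : Set Y} (hN : N.Countable) :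
    ∃ q ≤ p, ∃ N' : Set Y, N ⊆ N' ∧ N'.Countable ∧ ∀ n (s : Pfn Y Set.Finite), s.dom ⊆ N →
      ∃ s' ≤ s, s'.dom ⊆ N' ∧ (q, s') ∈ D n := by
  have hc := (countable_fin hN).to_subtype
  obtain ⟨q, hq, h⟩ := distrib (J := J × {s : Pfn Y Set.Finite | s.dom ⊆ N})
    (fun x => {q | ∃ s' ≤ x.2.1, (q, s') ∈ D x.1}) (by
      rintro ⟨n, s⟩ q ⟨s', hs', hq⟩ q' hq'
      exact ⟨s', hs', hdown n _ hq _ ⟨hq', le_rfl⟩⟩) (by
      rintro ⟨n, s⟩ q
      obtain ⟨⟨q', s'⟩, hle, hmem⟩ := hdense n (q, s.1)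
      exact ⟨q', hle.1, s', hle.2, hmem⟩) p
  choose g hg using h
  refine ⟨q, hq, N ∪ ⋃ x, (g x).dom, Set.subset_union_left, ?_, ?_⟩
  · refine hN.union (Set.countable_iUnion fun x => ?_)
    have h1 : (g x).dom = Prod.fst '' (g x).s := by
      ext y
      constructor
      · rintro ⟨b, hb⟩; exact ⟨(y, b), hb, rfl⟩
      · rintro ⟨⟨y', b⟩, hb, rfl⟩; exact ⟨b, hb⟩
    rw [h1]
    exact ((g x).hI.image _).countable
  · intro n s hs
    refine ⟨g (n, ⟨s, hs⟩), (hg (n, ⟨s, hs⟩)).1, ?_, (hg (n, ⟨s, hs⟩)).2⟩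
    exact (Set.subset_iUnion (fun x => (g x).dom) (n, ⟨s, hs⟩)).trans Set.subset_union_right

theorem dom_finite (s : Pfn Y Set.Finite) : s.dom.Finite := by
  have h1 : s.dom = Prod.fst '' s.s := by
    ext y
    constructor
    · rintro ⟨b, hb⟩; exact ⟨(y, b), hb, rfl⟩
    · rintro ⟨⟨y', b⟩, hb, rfl⟩; exact ⟨b, hb⟩
  rw [h1]
  exact s.hI.image _

theorem dom_countable (s : Pfn X Set.Countable) : s.dom.Countable := by
  have h1 : s.dom = Prod.fst '' s.s := by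
    ext y
    constructor
    · rintro ⟨b, hb⟩; exact ⟨(y, b), hb, rfl⟩
    · rintro ⟨⟨y', b⟩, hb, rfl⟩; exact ⟨b, hb⟩
  rw [h1]
  exact s.hI.image _

/-- **Main lemma.** Countably many dense open sets are, below a condition of the first kind,
decided by countably many conditions of the second kind. -/
theorem main_lemma {J : Type} [Countable J] (D : J → Set (Cnd X Y)) (hdown : ∀ n, Dwn (D n))
    (hdense : ∀ n, Dns (D n)) (p : Pfn X Set.Countable) :
    ∃ q ≤ p, ∃ N : Set Y, N.Countable ∧ ∀ n (s : Pfn Y Set.Finite), s.dom ⊆ N →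
      ∃ s' ≤ s, s'.dom ⊆ N ∧ (q, s') ∈ D n := by
  obtain ⟨f, hf0, hf⟩ := exists_seq (A := Pfn X Set.Countable × {N : Set Y // N.Countable})
    (fun a b => b.1 ≤ a.1 ∧ a.2.1 ⊆ b.2.1)
    (fun _ a b => ∀ n (s : Pfn Y Set.Finite), s.dom ⊆ a.2.1 →
      ∃ s' ≤ s, s'.dom ⊆ b.2.1 ∧ (b.1, s') ∈ D n) (by
      rintro _ ⟨a, N, hN⟩
      obtain ⟨q, hq, N', hNN, hN', h⟩ := step D hdown hdense a hN
      exact ⟨(q, ⟨N', hN'⟩), ⟨hq, hNN⟩, h⟩) (p, ⟨∅, Set.countable_empty⟩)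
  obtain ⟨r, hr⟩ := Pfn.exists_lub (fun n => (f n).1) fun n => (hf n).1.1
  have hmono : ∀ n m, n ≤ m → (f n).2.1 ⊆ (f m).2.1 := by
    intro n m h
    induction h with
    | refl => exact subset_rfl
    | step _ ih => exact ih.trans (hf _).1.2
  refine ⟨r, ?_, ⋃ n, (f n).2.1, Set.countable_iUnion fun n => (f n).2.2, ?_⟩
  · have := hr 0
    rw [hf0] at this
    exact this
  · intro n s hs
    obtain ⟨j, hj⟩ : ∃ j, s.dom ⊆ (f j).2.1 := by
      have hfin := dom_finite s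
      have hdir : Directed (· ⊆ ·) fun n => (f n).2.1 :=
        (monotone_nat_of_le_succ fun n => (hf n).1.2).directed_le
      obtain ⟨j, hj⟩ := hdir.exists_mem_subset_of_finset_subset_biUnion (s := hfin.toFinset)
        (by rw [hfin.coe_toFinset]; exact hs)
      exact ⟨j, by rw [hfin.coe_toFinset] at hj; exact hj⟩
    obtain ⟨s', hs', h1, h2⟩ := (hf j).2 n s hj
    exact ⟨s', hs', h1.trans (Set.subset_iUnion (fun n => (f n).2.1) (j + 1)),
      hdown n _ h2 _ ⟨hr (j + 1), le_rfl⟩⟩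

/-- Consequence of the main lemma for arbitrary conditions. -/
theorem main_lemma' {D : Set (Cnd X Y)} {q : Pfn X Set.Countable}
    {N : Set Y} (h : ∀ (s : Pfn Y Set.Finite), s.dom ⊆ N → ∃ s' ≤ s, s'.dom ⊆ N ∧ (q, s') ∈ D)
    (t : Cnd X Y) (ht : t.1 ≤ q) : ∃ s : Pfn Y Set.Finite, s.dom ⊆ N ∧ (q, s) ∈ D ∧
      ∃ r ≤ t, r ≤ (q, s) := by
  obtain ⟨s₀, hs₀⟩ := Pfn.exists_restrict good_finite t.2 N
  obtain ⟨s', hs', h1, h2⟩ := h s₀ (by
    rintro y ⟨b, hb⟩
    rw [hs₀] at hb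
    exact hb.2)
  obtain ⟨r, hr⟩ := Pfn.exists_amalg good_finite (p := t.2) (d := s') (M := N) h1 (by
    intro z hz hzN
    apply hs'
    rw [hs₀]
    exact ⟨hz, hzN⟩)
  refine ⟨s', h1, h2, (t.1, r), ⟨le_rfl, ?_⟩, ⟨ht, ?_⟩⟩
  · change t.2.s ⊆ r.s
    rw [hr]; exact Set.subset_union_left
  · change s'.s ⊆ r.s
    rw [hr]; exact Set.subset_union_right

end Pool.Agent.V11242.SP
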