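import Pool.Agent.V11242.SP.Closure
import Pool.Agent.V11242.SP.Poset
import Pool.Agent.Helper669.Forcing

/-!
# The forcing relation for the splitting statement
-/

set_option autoImplicit false

namespace Pool.Agent.V11242.SP

open Cardinal Pool.Agent.Helper669.Forcing

section formulas

variable (P : Type) [Preorder P] (K Ω : Type) [LinearOrder Ω]

/-- `φ` if and only if `ψ`. -/
def fiff {P : Type} [Preorder P] (φ ψ : Set P) : Set P := fand (fimp φ ψ) (fimp ψ φ)

/-- In the extension, every proper initial segment of `Ω` is covered by the range of a function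
from `ℕ` to `Ω`. -/
def SegHolds : Set P :=
  fall fun a : Ω => fex fun R : ℕ → Ω → Set P =>
    fand (IsFun R) (fall fun b : Ω => fimp (fground (b < a)) (fex fun n => meets (R n b)))

/-- In the extension, the range of every function from `ℕ` to `Ω` has a strict upper bound. -/
def BddHolds : Set P :=
  fall fun R : ℕ → Ω → Set P => fimp (IsFun R)
    (fex fun a : Ω => fall fun n => fall fun b : Ω => fimp (meets (R n b)) (fground (b < a)))

/-- In the extension, some map from `Y` to the power set of `ℕ` is onto. -/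
def PowHolds (Y : Type) : Set P :=
  fex fun E : Y → ℕ → Set P => fall fun x : ℕ → Set P =>
    fex fun y => fall fun n => fiff (meets (x n)) (meets (E y n))

variable {P Ω}

/-- The subset of `Ω` named by `C` is unbounded. -/
def Unbounded (C : Ω → Set P) : Set P :=
  fall fun a => fex fun b => fand (fground (a < b)) (meets (C b))

/-- The subset of `Ω` named by `Z` splits the one named by `C`. -/
def Splits (C Z : Ω → Set P) : Set P :=
  fand (fex fun a => fand (meets (C a)) (meets (Z a)))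
    (fex fun a => fand (meets (C a)) (fnot (meets (Z a))))

variable (P Ω)

/-- In the extension, every family, indexed by `K`, of unbounded subsets of `Ω` is split by a
single subset of `Ω`. -/
def SplitHolds : Set P :=
  fall fun C : K → Ω → Set P => fimp (fall fun k => Unbounded (C k))
    (fex fun Z : Ω → Set P => fall fun k => Splits (C k) Z)

/-- The sentence of the forcing language. -/
def PhiHolds : Set P :=
  fand (SegHolds P Ω) (fand (BddHolds P Ω) (fand (PowHolds P K)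
    (fand (fnot (PowHolds P Ω)) (SplitHolds P K Ω))))

end formulas

section proofs

variable {P : Type} [Preorder P]

theorem mem_meets_ground {h : Prop} {p : P} : p ∈ meets {_q : P | h} ↔ h := by
  constructor
  · intro hp
    obtain ⟨_, _, _, h', _⟩ := hp p le_rfl
    exact h'
  · intro hh q _
    exact ⟨q, le_rfl, q, hh, le_rfl⟩

theorem down_fiff (φ ψ : Set P) : Down (fiff φ ψ) := down_fand (down_fimp _ _) (down_fimp _ _)

theorem segHolds_of {Ω : Type} [LinearOrder Ω] [Nonempty Ω]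
    (hseg : ∀ a : Ω, (Set.Iio a).Countable) (p : P) : p ∈ SegHolds P Ω := by
  intro a
  obtain ⟨g, hg⟩ : ∃ g : ℕ → Ω, ∀ b < a, ∃ n, g n = b := by
    rcases (Set.Iio a).eq_empty_or_nonempty with h | h
    · refine ⟨fun _ => Classical.arbitrary Ω, fun b hb => ?_⟩
      have : b ∈ Set.Iio a := hb
      rw [h] at this
      exact this.elim
    · obtain ⟨g, hg⟩ := (hseg a).exists_eq_range h
      refine ⟨g, fun b hb => ?_⟩
      have : b ∈ Set.Iio a := hb
      rw [hg] at this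
      exact this
  refine mem_fex_of_mem (fun n b => {_q : P | g n = b})
    (down_fand (down_IsFun _) (down_fall fun _ => down_fimp _ _)) ⟨⟨?_, ?_⟩, ?_⟩
  · intro n
    exact mem_fex_of_mem (g n) (down_meets _) (mem_meets_ground.2 rfl)
  · intro n b b'
    refine mem_fimp.2 fun q _ h => ⟨q, le_rfl, ?_⟩
    exact (mem_meets_ground.1 h.1).symm.trans (mem_meets_ground.1 h.2)
  · intro b
    refine mem_fimp.2 fun q _ h => ⟨q, le_rfl, ?_⟩
    obtain ⟨n, hn⟩ := hg b h
    exact mem_fex_of_mem n (down_meets _) (mem_meets_ground.2 hn)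

end proofs

section product

variable {X Y : Type}

theorem dns_decide {P : Type} [Preorder P] {φ : Set P} :
    Dns {q | q ∈ φ ∨ q ∈ fnot φ} := by
  intro p
  by_cases h : ∃ q ≤ p, q ∈ φ
  · obtain ⟨q, hq, h'⟩ := h
    exact ⟨q, hq, Or.inl h'⟩
  · push Not at h
    exact ⟨p, le_rfl, Or.inr fun q hq => h q hq⟩

theorem dwn_decide {P : Type} [Preorder P] {φ : Set P} (hφ : Down φ) :
    Dwn {q | q ∈ φ ∨ q ∈ fnot φ} := by
  rintro p (h | h) q hq
  · exact Or.inl (hφ p h q hq)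
  · exact Or.inr (down_fnot _ p h q hq)

theorem bddHolds_of {Ω : Type} [LinearOrder Ω] [Nonempty Ω]
    (hbdd : ∀ S : Set Ω, S.Countable → ∃ a, ∀ b ∈ S, b < a) (p : Cnd X Y) :
    p ∈ BddHolds (Cnd X Y) Ω := by
  classical
  intro R
  refine mem_fimp.2 fun q _ hq => ?_
  obtain ⟨r₁, hr₁, N, hN, hmain⟩ := main_lemma
    (fun n : ℕ => {t : Cnd X Y | (∃ a, t ∈ meets (R n a)) ∨ t ∈ fnot (IsFun R)}) (by
      rintro n t (⟨a, ha⟩ | ht) t' ht'
      · exact Or.inl ⟨a, down_meets _ _ ha _ ht'⟩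
      · exact Or.inr (down_fnot _ _ ht _ ht')) (by
      intro n t
      by_cases h : ∃ t' ≤ t, t' ∈ IsFun R
      · obtain ⟨t', ht', h'⟩ := h
        obtain ⟨t'', ht'', a, ha⟩ := IsFun.total h' n
        exact ⟨t'', ht''.trans ht', Or.inl ⟨a, ha⟩⟩
      · push Not at h
        exact ⟨t, le_rfl, Or.inr fun t' ht' => h t' ht'⟩) q.1
  let v : ℕ → Pfn Y Set.Finite → Ω := fun n s =>
    if h : ∃ a, ((r₁, s) : Cnd X Y) ∈ meets (R n a) then Classical.choose h
    else Classical.arbitrary Ω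
  have hv : ∀ n s, (∃ a, ((r₁, s) : Cnd X Y) ∈ meets (R n a)) →
      ((r₁, s) : Cnd X Y) ∈ meets (R n (v n s)) := by
    intro n s h
    simp only [v, dif_pos h]
    exact Classical.choose_spec h
  have hc := (countable_fin hN).to_subtype
  obtain ⟨a, ha⟩ := hbdd (Set.range fun x : ℕ × {s : Pfn Y Set.Finite | s.dom ⊆ N} => v x.1 x.2.1)
    (Set.countable_range _)
  refine ⟨(r₁, q.2), ⟨hr₁, le_rfl⟩, ?_⟩
  refine mem_fex_of_mem a (down_fall fun _ => down_fall fun _ => down_fimp _ _) ?_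
  intro n b
  refine mem_fimp.2 fun t ht htb => ⟨t, le_rfl, ?_⟩
  obtain ⟨s, hs, hsD, w, hw1, hw2⟩ := main_lemma' (hmain n) t ht.1
  have hwfun : w ∈ IsFun R := down_IsFun R _ hq _ (hw1.trans (ht.trans ⟨hr₁, le_rfl⟩))
  have h1 : ∃ a, ((r₁, s) : Cnd X Y) ∈ meets (R n a) := by
    rcases hsD with h | h
    · exact h
    · exact absurd hwfun (h w hw2)
  have h2 := down_meets _ _ (hv n s h1) _ hw2
  have h3 : b = v n s := IsFun.unique hwfun (down_meets _ _ htb _ hw1) h2
  change b < a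
  rw [h3]
  exact ha _ ⟨(n, ⟨s, hs⟩), rfl⟩

theorem powHolds_of {K : Type} (hK : #(ℕ → ℕ → Option (Pfn Y Set.Finite)) ≤ #K) (p : Cnd X Y) :
    p ∈ PowHolds (Cnd X Y) K := by
  classical
  obtain ⟨e, he⟩ : ∃ e : K → (ℕ → ℕ → Option (Pfn Y Set.Finite)), Function.Surjective e := by
    obtain ⟨φ⟩ := hK
    exact ⟨Function.invFun φ, Function.invFun_surjective φ.injective⟩
  refine mem_fex_of_mem (fun k n => {q : Cnd X Y | ∃ m s, e k n m = some s ∧ q.2 ≤ s})
    (down_fall fun _ => down_fex _) ?_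
  intro x
  refine mem_fex.2 fun q _ => ?_
  obtain ⟨r₁, hr₁, N, hN, hmain⟩ := main_lemma
    (fun n : ℕ => {t : Cnd X Y | t ∈ meets (x n) ∨ t ∈ fnot (meets (x n))})
    (fun n => dwn_decide (down_meets _)) (fun n => dns_decide) q.1
  have hc := countable_fin hN
  have h1 : ∀ n, ∃ h : ℕ → Option (Pfn Y Set.Finite), ∀ s,
      s ∈ {s : Pfn Y Set.Finite | s.dom ⊆ N ∧ ((r₁, s) : Cnd X Y) ∈ meets (x n)} ↔
        ∃ m, h m = some s :=
    fun n => exists_enum (hc.mono fun s hs => hs.1)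
  choose h hh using h1
  obtain ⟨k, hk⟩ := he h
  refine ⟨(r₁, q.2), ⟨hr₁, le_rfl⟩, k, fun n => ⟨?_, ?_⟩⟩
  · refine mem_fimp.2 fun t ht htx => ?_
    obtain ⟨s, hs, hsD, w, hw1, hw2⟩ := main_lemma' (hmain n) t ht.1
    have h2 : ((r₁, s) : Cnd X Y) ∈ meets (x n) := by
      rcases hsD with h | h
      · exact h
      · exact absurd (down_meets _ _ htx _ hw1) (h w hw2)
    obtain ⟨m, hm⟩ := (hh n s).mp ⟨hs, h2⟩
    refine ⟨w, hw1, meets_of_mem ⟨m, s, ?_, hw2.2⟩⟩
    rw [hk]; exact hm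
  · refine mem_fimp.2 fun t ht htx => ?_
    obtain ⟨w, hw, u, ⟨m, s, hm, hus⟩, hwu⟩ := htx t le_rfl
    rw [hk] at hm
    have h2 := ((hh n s).mpr ⟨m, hm⟩).2
    exact ⟨w, hw, down_meets _ _ h2 _ ⟨(hw.trans ht).1, hwu.2.trans hus⟩⟩

/-- The support of a condition. -/
def supp (p : Cnd X Y) : Set (X ⊕ Y) := Sum.inl '' p.1.dom ∪ Sum.inr '' p.2.dom

theorem supp_countable (p : Cnd X Y) : (supp p).Countable :=
  ((dom_countable p.1).image _).union ((dom_finite p.2).countable.image _)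

theorem mk_pfn_le {I : Set (X × Bool) → Prop} {S : Set X} (hS : S.Countable) :
    #{p : Pfn X I // p.dom ⊆ S} ≤ 𝔠 := by
  have h1 : #{p : Pfn X I // p.dom ⊆ S} ≤ #(Set (S × Bool)) := by
    refine Cardinal.mk_le_of_injective
      (f := fun p => {z : S × Bool | (z.1.1, z.2) ∈ p.1.s}) ?_
    intro p q h
    apply Subtype.ext
    apply Pfn.ext'
    ext ⟨x, b⟩
    constructor
    · intro hx
      have h2 : ((⟨x, p.2 ⟨b, hx⟩⟩, b) : S × Bool) ∈ {z : S × Bool | (z.1.1, z.2) ∈ p.1.s} := hx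
      simp only at h
      rw [h] at h2
      exact h2
    · intro hx
      have h2 : ((⟨x, q.2 ⟨b, hx⟩⟩, b) : S × Bool) ∈ {z : S × Bool | (z.1.1, z.2) ∈ q.1.s} := hx
      simp only at h
      rw [← h] at h2
      exact h2
  refine h1.trans ?_
  rw [Cardinal.mk_set]
  have h2 : #(S × Bool) ≤ ℵ₀ := by
    have := hS.to_subtype
    exact Cardinal.mk_le_aleph0
  calc (2 : Cardinal) ^ #(S × Bool) ≤ 2 ^ ℵ₀ := Cardinal.power_le_power_left two_ne_zero h2
    _ = 𝔠 := Cardinal.two_power_aleph0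

theorem mk_supp_le (S : Set (X ⊕ Y)) (hS : S.Countable) :
    #{p : Cnd X Y // supp p ⊆ S} ≤ 𝔠 := by
  have h1 : #{p : Cnd X Y // supp p ⊆ S} ≤
      #({p : Pfn X Set.Countable // p.dom ⊆ Sum.inl ⁻¹' S} ×
        {p : Pfn Y Set.Finite // p.dom ⊆ Sum.inr ⁻¹' S}) := by
    refine Cardinal.mk_le_of_injective (f := fun p =>
      (⟨p.1.1, fun x hx => p.2 (Or.inl ⟨x, hx, rfl⟩)⟩,
        ⟨p.1.2, fun x hx => p.2 (Or.inr ⟨x, hx, rfl⟩)⟩)) ?_
    intro p q h
    simp only [Prod.mk.injEq, Subtype.mk.injEq] at h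
    exact Subtype.ext (Prod.ext h.1 h.2)
  refine h1.trans ?_
  rw [Cardinal.mk_prod, Cardinal.lift_id, Cardinal.lift_id]
  calc _ ≤ 𝔠 * 𝔠 := mul_le_mul'
        (mk_pfn_le (hS.preimage Sum.inl_injective)) (mk_pfn_le (hS.preimage Sum.inr_injective))
    _ = 𝔠 := Cardinal.continuum_mul_self

theorem not_powHolds {K Ω X : Type} (hΩ : #Ω ≤ 𝔠) (hK : 𝔠 < #K) (p : Cnd X (K × ℕ)) :
    p ∈ fnot (PowHolds (Cnd X (K × ℕ)) Ω) := by
  classical
  intro q _ hq
  obtain ⟨r, _, E, hE⟩ := mem_fex.1 hq q le_rfl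
  have hdense : ∀ (i : Ω × ℕ) (t : Cnd X (K × ℕ)), ∃ t' ≤ t,
      t' ∈ meets (E i.1 i.2) ∨ t' ∈ fnot (meets (E i.1 i.2)) := fun i t => dns_decide t
  choose g hg1 hg2 using hdense
  obtain ⟨M, hM, hcl⟩ := exists_closed_supp (κ := 𝔠) (by rw [Cardinal.continuum_power_aleph0])
    Cardinal.aleph0_le_continuum (I := Ω × ℕ) (by
      rw [Cardinal.mk_prod, Cardinal.lift_id, Cardinal.lift_id, Cardinal.mk_nat]
      calc #Ω * ℵ₀ ≤ 𝔠 * 𝔠 := mul_le_mul' hΩ Cardinal.aleph0_le_continuum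
        _ = 𝔠 := Cardinal.continuum_mul_self) supp supp_countable mk_supp_le g
  obtain ⟨k, hk⟩ : ∃ k : K, ∀ n : ℕ, Sum.inr (k, n) ∉ M := by
    by_contra hc
    push Not at hc
    choose m hm using hc
    have h1 : #K ≤ #M := by
      refine Cardinal.mk_le_of_injective (f := fun k => (⟨_, hm k⟩ : M)) ?_
      intro k k' h
      simp only [Subtype.mk.injEq, Sum.inr.injEq, Prod.mk.injEq] at h
      exact h.1
    exact absurd (h1.trans hM) (not_le.mpr hK)
  obtain ⟨r', _, a, ha⟩ := mem_fex.1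
    (hE (fun n => {t : Cnd X (K × ℕ) | ((k, n), true) ∈ t.2.s})) r le_rfl
  obtain ⟨n, hn⟩ : ∃ n, (k, n) ∉ r'.2.dom := by
    by_contra hc
    push Not at hc
    have h1 : (Set.range fun n : ℕ => (k, n)).Infinite :=
      Set.infinite_range_of_injective fun a b h => by simpa using h
    refine h1 ((dom_finite r'.2).subset ?_)
    rintro _ ⟨n, rfl⟩
    exact hc n
  obtain ⟨s₁, hs₁⟩ := Pfn.exists_restrict good_countable r'.1 (Sum.inl ⁻¹' M)
  obtain ⟨s₂, hs₂⟩ := Pfn.exists_restrict good_finite r'.2 (Sum.inr ⁻¹' M)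
  have hsupp : supp ((s₁, s₂) : Cnd X (K × ℕ)) ⊆ M := by
    rintro z (⟨x, ⟨b, hb⟩, rfl⟩ | ⟨x, ⟨b, hb⟩, rfl⟩)
    · change (x, b) ∈ s₁.s at hb
      rw [hs₁] at hb
      exact hb.2
    · change (x, b) ∈ s₂.s at hb
      rw [hs₂] at hb
      exact hb.2
  have hd := hcl (a, n) (s₁, s₂) hsupp
  have hdle := hg1 (a, n) (s₁, s₂)
  have hdD := hg2 (a, n) (s₁, s₂)
  set d := g (a, n) (s₁, s₂) with hdef
  obtain ⟨u₁, hu₁⟩ := Pfn.exists_amalg good_countable (p := r'.1) (d := d.1)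
    (M := Sum.inl ⁻¹' M) (fun x hx => hd (Or.inl ⟨x, hx, rfl⟩)) (by
      intro z hz hzM
      apply hdle.1
      change z ∈ s₁.s
      rw [hs₁]
      exact ⟨hz, hzM⟩)
  obtain ⟨u₂, hu₂⟩ := Pfn.exists_amalg good_finite (p := r'.2) (d := d.2)
    (M := Sum.inr ⁻¹' M) (fun x hx => hd (Or.inr ⟨x, hx, rfl⟩)) (by
      intro z hz hzM
      apply hdle.2
      change z ∈ s₂.s
      rw [hs₂]
      exact ⟨hz, hzM⟩)
  have hu2dom : (k, n) ∉ u₂.dom := by
    rintro ⟨b, hb⟩
    rw [hu₂] at hb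
    rcases hb with hb | hb
    · exact hn ⟨b, hb⟩
    · exact hk n (hd (Or.inr ⟨_, ⟨b, hb⟩, rfl⟩))
  rcases hdD with hyes | hno
  · obtain ⟨w₂, hw₂⟩ := Pfn.exists_add good_finite u₂ hu2dom false
    have hle1 : ((u₁, w₂) : Cnd X (K × ℕ)) ≤ r' := by
      constructor
      · change r'.1.s ⊆ u₁.s
        rw [hu₁]; exact Set.subset_union_left
      · change r'.2.s ⊆ w₂.s
        rw [hw₂, hu₂]
        exact Set.subset_union_left.trans (Set.subset_insert _ _)
    have hle2 : ((u₁, w₂) : Cnd X (K × ℕ)) ≤ d := by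
      constructor
      · change d.1.s ⊆ u₁.s
        rw [hu₁]; exact Set.subset_union_right
      · change d.2.s ⊆ w₂.s
        rw [hw₂, hu₂]
        exact Set.subset_union_right.trans (Set.subset_insert _ _)
    obtain ⟨y, hy, hy'⟩ := mem_fimp.1 (ha n).2 _ hle1 (down_meets _ _ hyes _ hle2)
    obtain ⟨z, hz, z', hz', hzz⟩ := hy' y le_rfl
    have e1 : ((k, n), true) ∈ z.2.s := hzz.2 hz'
    have e2 : ((k, n), false) ∈ z.2.s := (hz.trans hy).2 (by
      change ((k, n), false) ∈ w₂.s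
      rw [hw₂]; exact Set.mem_insert _ _)
    have := z.2.fn _ _ _ e1 e2
    cases this
  · obtain ⟨w₂, hw₂⟩ := Pfn.exists_add good_finite u₂ hu2dom true
    have hle1 : ((u₁, w₂) : Cnd X (K × ℕ)) ≤ r' := by
      constructor
      · change r'.1.s ⊆ u₁.s
        rw [hu₁]; exact Set.subset_union_left
      · change r'.2.s ⊆ w₂.s
        rw [hw₂, hu₂]
        exact Set.subset_union_left.trans (Set.subset_insert _ _)
    have hle2 : ((u₁, w₂) : Cnd X (K × ℕ)) ≤ d := by
      constructor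
      · change d.1.s ⊆ u₁.s
        rw [hu₁]; exact Set.subset_union_right
      · change d.2.s ⊆ w₂.s
        rw [hw₂, hu₂]
        exact Set.subset_union_right.trans (Set.subset_insert _ _)
    obtain ⟨y, hy, hy'⟩ := mem_fimp.1 (ha n).1 _ hle1 (meets_of_mem (by
      change ((k, n), true) ∈ w₂.s
      rw [hw₂]; exact Set.mem_insert _ _))
    exact hno y (hy.trans hle2) hy'

theorem splitHolds_of {K Ω Λ Y : Type} [LinearOrder Ω]
    (hbdd : ∀ S : Set Ω, S.Countable → ∃ a, ∀ b ∈ S, b < a)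
    (hΩ : #Ω ≤ 𝔠) (hK : 𝔠 ≤ #K) (hKω : #K ^ ℵ₀ ≤ #K) (hY : #Y ≤ #K) (hΛ : #K < #Λ)
    (p : Cnd (Λ × Ω) Y) : p ∈ SplitHolds (Cnd (Λ × Ω) Y) K Ω := by
  classical
  have hK0 : ℵ₀ ≤ #K := Cardinal.aleph0_le_continuum.trans hK
  intro C
  refine mem_fimp.2 fun q _ hq => ?_
  have hdense : ∀ (i : K × Ω) (t : Cnd (Λ × Ω) Y), ∃ t' ≤ t,
      t' ∈ meets (C i.1 i.2) ∨ t' ∈ fnot (meets (C i.1 i.2)) := fun i t => dns_decide t
  choose g hg1 hg2 using hdense
  obtain ⟨M, hM, hcl⟩ := exists_closed_supp (P := Cnd (Λ × Ω) Y) (Z := Λ × Ω) (κ := #K) hKω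
    hK0 (I := K × Ω) (by
      rw [Cardinal.mk_prod, Cardinal.lift_id, Cardinal.lift_id]
      calc #K * #Ω ≤ #K * #K := mul_le_mul' le_rfl (hΩ.trans hK)
        _ = #K := Cardinal.mul_eq_self hK0) (fun p => p.1.dom) (fun p => dom_countable p.1) (by
      intro S hS
      have h1 : #{p : Cnd (Λ × Ω) Y // p.1.dom ⊆ S} ≤
          #({p : Pfn (Λ × Ω) Set.Countable // p.dom ⊆ S} × Pfn Y Set.Finite) := by
        refine Cardinal.mk_le_of_injective (f := fun p => (⟨p.1.1, p.2⟩, p.1.2)) ?_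
        intro p q h
        simp only [Prod.mk.injEq, Subtype.mk.injEq] at h
        exact Subtype.ext (Prod.ext h.1 h.2)
      refine h1.trans ?_
      rw [Cardinal.mk_prod, Cardinal.lift_id, Cardinal.lift_id]
      have h2 : #(Pfn Y Set.Finite) ≤ #K := by
        have h3 : #(Pfn Y Set.Finite) ≤ #(Finset (Y × Bool)) := by
          refine Cardinal.mk_le_of_injective (f := fun p => p.hI.toFinset) ?_
          intro p q h
          apply Pfn.ext'
          have := congrArg (fun s : Finset (Y × Bool) => (s : Set (Y × Bool))) h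
          simpa using this
        have h4 : #(Finset (Y × Bool)) ≤ max ℵ₀ #(Y × Bool) := by
          rcases finite_or_infinite (Y × Bool) with h | h
          · exact le_max_of_le_left (Cardinal.mk_le_aleph0)
          · rw [Cardinal.mk_finset_of_infinite]
            exact le_max_right _ _
        refine h3.trans (h4.trans (max_le hK0 ?_))
        rw [Cardinal.mk_prod, Cardinal.lift_id, Cardinal.lift_id]
        calc #Y * #Bool ≤ #K * #K := mul_le_mul' hY (by
              rw [Cardinal.mk_bool]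
              exact (Cardinal.natCast_lt_aleph0 (n := 2)).le.trans hK0)
          _ = #K := Cardinal.mul_eq_self hK0
      calc _ ≤ 𝔠 * #K := mul_le_mul' (mk_pfn_le hS) h2
        _ ≤ #K * #K := mul_le_mul' hK le_rfl
        _ = #K := Cardinal.mul_eq_self hK0) g
  obtain ⟨ζ, hζ⟩ : ∃ ζ : Λ, ∀ α : Ω, (ζ, α) ∉ M := by
    by_contra hc
    push Not at hc
    choose m hm using hc
    have h1 : #Λ ≤ #M := by
      refine Cardinal.mk_le_of_injective (f := fun k => (⟨_, hm k⟩ : M)) ?_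
      intro k k' h
      simp only [Subtype.mk.injEq, Prod.mk.injEq] at h
      exact h.1
    exact absurd (h1.trans hM) (not_le.mpr hΛ)
  -- the main construction
  have key : ∀ (k : K) (t : Cnd (Λ × Ω) Y), t ≤ q → ∀ b : Bool, ∃ t' ≤ t, ∃ α,
      t' ∈ meets (C k α) ∧ ((ζ, α), b) ∈ t'.1.s := by
    intro k t ht b
    obtain ⟨β, hβ⟩ := hbdd {α | (ζ, α) ∈ t.1.dom} (by
      refine Set.Countable.mono (s₂ := Prod.snd '' t.1.dom) ?_ ((dom_countable t.1).image _)
      intro α hα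
      exact ⟨(ζ, α), hα, rfl⟩)
    obtain ⟨r, hr, α, hα, hrα⟩ := mem_fex.1 (hq k β) t ht
    have hα' : β < α := hα
    obtain ⟨s₁, hs₁⟩ := Pfn.exists_restrict good_countable r.1 M
    have hsupp : s₁.dom ⊆ M := by
      rintro x ⟨c, hc⟩
      rw [hs₁] at hc
      exact hc.2
    have hd := hcl (k, α) (s₁, r.2) hsupp
    have hdle := hg1 (k, α) (s₁, r.2)
    have hdD := hg2 (k, α) (s₁, r.2)
    set d := g (k, α) (s₁, r.2) with hdef
    have hcomp : ∀ z ∈ r.1.s, z.1 ∈ M → z ∈ d.1.s := by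
      intro z hz hzM
      apply hdle.1
      change z ∈ s₁.s
      rw [hs₁]
      exact ⟨hz, hzM⟩
    obtain ⟨u₁, hu₁⟩ := Pfn.exists_amalg good_countable (p := r.1) (d := d.1) (M := M) hd hcomp
    have hyes : d ∈ meets (C k α) := by
      rcases hdD with h | h
      · exact h
      · exfalso
        refine h (u₁, d.2) ⟨?_, le_rfl⟩ (down_meets _ _ hrα _ ⟨?_, hdle.2⟩)
        · change d.1.s ⊆ u₁.s
          rw [hu₁]; exact Set.subset_union_right
        · change r.1.s ⊆ u₁.s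
          rw [hu₁]; exact Set.subset_union_left
    obtain ⟨v₁, hv₁⟩ := Pfn.exists_amalg good_countable (p := t.1) (d := d.1) (M := M) hd
      (fun z hz hzM => hcomp z (hr.1 hz) hzM)
    have hdom : (ζ, α) ∉ v₁.dom := by
      rintro ⟨c, hc⟩
      rw [hv₁] at hc
      rcases hc with hc | hc
      · exact absurd (hβ α ⟨c, hc⟩) (not_lt.mpr hα'.le)
      · exact hζ α (hd ⟨c, hc⟩)
    obtain ⟨w₁, hw₁⟩ := Pfn.exists_add good_countable v₁ hdom b
    refine ⟨(w₁, d.2), ⟨?_, hdle.2.trans hr.2⟩, α, down_meets _ _ hyes _ ⟨?_, le_rfl⟩, ?_⟩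
    · change t.1.s ⊆ w₁.s
      rw [hw₁, hv₁]
      exact Set.subset_union_left.trans (Set.subset_insert _ _)
    · change d.1.s ⊆ w₁.s
      rw [hw₁, hv₁]
      exact Set.subset_union_right.trans (Set.subset_insert _ _)
    · change ((ζ, α), b) ∈ w₁.s
      rw [hw₁]
      exact Set.mem_insert _ _
  refine ⟨q, le_rfl, mem_fex_of_mem
    (fun α => {t : Cnd (Λ × Ω) Y | ((ζ, α), true) ∈ t.1.s})
    (down_fall fun _ => down_fand (down_fex _) (down_fex _)) fun k => ⟨?_, ?_⟩⟩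
  · refine mem_fex.2 fun t ht => ?_
    obtain ⟨t', ht', α, h1, h2⟩ := key k t ht true
    exact ⟨t', ht', α, h1, meets_of_mem h2⟩
  · refine mem_fex.2 fun t ht => ?_
    obtain ⟨t', ht', α, h1, h2⟩ := key k t ht false
    refine ⟨t', ht', α, h1, fun w hw hw' => ?_⟩
    obtain ⟨z, hz, z', hz', hzz⟩ := hw' w le_rfl
    have e1 : ((ζ, α), true) ∈ z.1.s := hzz.1 hz'
    have e2 : ((ζ, α), false) ∈ z.1.s := (hz.trans hw).1 h2
    have := z.1.fn _ _ _ e1 e2
    cases this

end product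

end Pool.Agent.V11242.SP
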